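import Pool.Agent.helper94.MA.Spec
import Pool.Agent.helper25.HY.MOB

/-!
# Block mm:, module CORE: Theorem A in the coordinates of the disc
-/

set_option autoImplicit false

open Complex Metric Set Filter Topology

noncomputable section

namespace MA

theorem CORE_Bm (hMOB : HY.MOB_stmt) (n : ℕ) (hn : 2 ≤ n) (b : ℂ) (hb : b ∈ HY.UD) :
    DifferentiableOn ℂ (MS.Bm n b) HY.UD ∧ MapsTo (MS.Bm n b) HY.UD HY.UD := by
  obtain ⟨h1, -, -, -, h5, -⟩ := hMOB b hb
  have hpow : MapsTo (fun w : ℂ => w ^ n) HY.UD HY.UD := by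
    intro w hw
    have hw' : ‖w‖ < 1 := by simpa [HY.UD] using hw
    show w ^ n ∈ HY.UD
    simp only [HY.UD, mem_ball_zero_iff, norm_pow]
    exact pow_lt_one₀ (norm_nonneg _) hw' (by omega)
  refine ⟨?_, ?_⟩
  · exact h5.comp (differentiableOn_pow n) hpow
  · intro w hw
    exact ((h1 _ (hpow hw))).2.1

theorem CORE_E (hMOB : HY.MOB_stmt) (n : ℕ) (hn : 2 ≤ n) (β : ℕ → ℂ) : ∀ t : ℕ, (∀ j < t, β j ∈ HY.UD) →
    DifferentiableOn ℂ (MS.E n β t) HY.UD ∧ MapsTo (MS.E n β t) HY.UD HY.UD := by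
  intro t
  induction t with
  | zero =>
    intro _
    exact ⟨differentiableOn_id, fun w hw => hw⟩
  | succ t ih =>
    intro hβ
    obtain ⟨h1, h2⟩ := ih (fun j hj => hβ j (by omega))
    obtain ⟨h3, h4⟩ := CORE_Bm hMOB n hn (β t) (hβ t (by omega))
    exact ⟨h1.comp h3 h4, h2.comp h4⟩

theorem CORE_orb (n : ℕ) (β a : ℕ → ℂ) (t : ℕ) (h : MS.OrbD n β a t) : ∀ j ≤ t, MS.E n β j (a j) = a 0 := by
  intro j
  induction j with
  | zero =>
    intro _
    rfl
  | succ j ih =>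
    intro hj
    show MS.E n β j (MS.Bm n (β j) (a (j + 1))) = a 0
    rw [← h.stp j (by omega)]
    exact ih (by omega)

/-- `h ≤ -log v` implies `h / 2 ≤ 1 - v` for `h ≤ 1`. -/
theorem CORE_log (h v : ℝ) (hh : 0 < h) (hh1 : h ≤ 1) (hv : 0 < v) (hl : h ≤ -Real.log v) : h / 2 ≤ 1 - v := by
  have h1 : v ≤ Real.exp (-h) := by
    rw [← Real.exp_log hv]
    exact Real.exp_le_exp.2 (by linarith)
  have h2 : Real.exp (-h) ≤ 1 - h / 2 := by
    have h3 : 1 + h ≤ Real.exp h := by linarith [Real.add_one_le_exp h]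
    have h4 : Real.exp (-h) * Real.exp h = 1 := by rw [← Real.exp_add]; simp
    have h5 : 0 < Real.exp (-h) := Real.exp_pos _
    have h6 : Real.exp (-h) * (1 + h) ≤ 1 := by
      calc Real.exp (-h) * (1 + h) ≤ Real.exp (-h) * Real.exp h := by
            exact mul_le_mul_of_nonneg_left h3 h5.le
        _ = 1 := h4
    have h7 : (1 - h / 2) * (1 + h) ≥ 1 := by nlinarith
    have h8 : (Real.exp (-h) - (1 - h / 2)) * (1 + h) ≤ 0 := by nlinarith
    by_contra hcon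
    push Not at hcon
    have : 0 < (Real.exp (-h) - (1 - h / 2)) * (1 + h) := by
      apply mul_pos <;> linarith
    linarith
  linarith

theorem CORE (hMOB : HY.MOB_stmt) (hMASS : MS.MASS_stmt) (hLOSS : MS.LOSS_stmt) (hLAN : MS.LANDAU_stmt)
    (hSUM : SUMR_stmt) (hSQR : SQR_stmt) : CORE_stmt := by
  intro n hn C A θ m hC hA hθ hθ1 hm
  obtain ⟨CM, hCM, hM⟩ := hMASS n hn
  have h2A : (1 : ℝ) ≤ 2 ^ A := Real.one_le_rpow (by norm_num) hA.le
  have hC' : C ≤ C * 2 ^ A := by nlinarith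
  have hC'0 : 0 < C * 2 ^ A := by positivity
  obtain ⟨u, hu0, hu1, hS⟩ := hSUM (C * 2 ^ A) A θ (m / (2 * CM)) hC'0 hA hθ hθ1 (by positivity)
  obtain ⟨B, hB0, hB⟩ := hSQR C hC
  set θ' : ℝ := max (1 - u) (1 / 2) with hθ'
  have hθ'1 : θ' < 1 := by
    rw [hθ', max_lt_iff]
    constructor <;> linarith
  have hθ'2 : 1 / 2 ≤ θ' := le_max_right _ _
  have hθ'u : 1 - u ≤ θ' := le_max_left _ _
  set N₀ : ℕ := ⌊C * (1 - θ')⁻¹ * (1 + Real.log (1 / (1 - θ')))⌋₊ with hN₀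
  set δ₀ : ℝ := (m / 2) / (n : ℝ) ^ N₀ with hδ₀
  have hn0 : (0 : ℝ) < n := by
    have : 0 < n := by omega
    exact_mod_cast this
  have hn1 : (1 : ℝ) ≤ n := by
    have : 1 ≤ n := by omega
    exact_mod_cast this
  have hδ₀p : 0 < δ₀ := by positivity
  set q : ℝ := Real.exp (-δ₀) with hq
  have hq0 : 0 < q := Real.exp_pos _
  have hq1 : q < 1 := by
    rw [hq, Real.exp_lt_one_iff]
    linarith
  set v₀ : ℝ := Real.exp (-(C * (1 + Real.log (4 / (1 - q) ^ 2)))) with hv₀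
  obtain ⟨c₁, hc₁, hL⟩ := hLOSS n hn B q v₀ hq0.le hq1 (Real.exp_pos _)
  obtain ⟨c₂, hc₂, hc₂1, hG⟩ := hLAN c₁ hc₁
  refine ⟨c₂, q, hc₂, hc₂1, hq0.le, hq1, ?_⟩
  intro β a t hO ha0 hCNT
  have hE := CORE_E hMOB n hn β t hO.bet
  -- basic facts
  have hamem : ∀ j ≤ t, ‖a j‖ < 1 := fun j hj => by simpa [HY.UD] using hO.mem j hj
  have hEmem : ∀ j ≤ t, ‖MS.E n β j 0‖ < 1 := by
    intro j hj
    have := (CORE_E hMOB n hn β j (fun i hi => hO.bet i (by omega))).2 (show (0 : ℂ) ∈ HY.UD by simp [HY.UD])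
    simpa [HY.UD] using this
  have hEpos : ∀ j, 1 ≤ j → j ≤ t → 0 < ‖MS.E n β j 0‖ := fun j h1 h2 => norm_pos_iff.2 (hCNT.ne j h1 h2)
  have hγ : ∀ j, 1 ≤ j → j ≤ t → 0 ≤ -Real.log ‖MS.E n β j 0‖ := by
    intro j h1 h2
    have := Real.log_nonpos (norm_nonneg _) (hEmem j h2).le
    linarith
  have hlog0 : ∀ s : ℝ, 0 < s → s ≤ 1 → 0 ≤ Real.log (1 / s) := by
    intro s hs hs1
    apply Real.log_nonneg
    rw [le_div_iff₀ hs]
    linarith
  -- the sum of the losses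
  have hsum : ∑ j ∈ (Finset.Icc 1 t).filter (fun j => 1 - ‖a j‖ ≤ u), (1 - ‖a j‖) * (-Real.log ‖MS.E n β j 0‖) ≤ m / (2 * CM) := by
    apply hS (Finset.Icc 1 t) (fun j => 1 - ‖a j‖) (fun j => -Real.log ‖MS.E n β j 0‖)
    · intro j hj
      rw [Finset.mem_Icc] at hj
      refine ⟨by linarith [hamem j hj.2], by linarith [norm_nonneg (a j)], hγ j hj.1 hj.2⟩
    · intro s hs hs1
      refine (hCNT.cnt s hs hs1).trans ?_
      have h1 : 0 ≤ s⁻¹ * (1 + Real.log (1 / s)) := by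
        have := hlog0 s hs hs1
        positivity
      calc C * s⁻¹ * (1 + Real.log (1 / s)) = C * (s⁻¹ * (1 + Real.log (1 / s))) := by ring
        _ ≤ C * 2 ^ A * (s⁻¹ * (1 + Real.log (1 / s))) := mul_le_mul_of_nonneg_right hC' h1
        _ = C * 2 ^ A * s⁻¹ * (1 + Real.log (1 / s)) := by ring
    · intro s h hs hs1 hh hh1
      have hsub : (Finset.Icc 1 t).filter (fun j => s ≤ 1 - ‖a j‖ ∧ h ≤ -Real.log ‖MS.E n β j 0‖) ⊆
          (Finset.Icc 1 t).filter (fun j => s ≤ 1 - ‖a j‖ ∧ h / 2 ≤ 1 - ‖MS.E n β j 0‖) := by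
        intro j hj
        rw [Finset.mem_filter, Finset.mem_Icc] at hj ⊢
        exact ⟨hj.1, hj.2.1, CORE_log h _ hh hh1 (hEpos j hj.1.1 hj.1.2) hj.2.2⟩
      have h1 : ((((Finset.Icc 1 t).filter (fun j => s ≤ 1 - ‖a j‖ ∧ h ≤ -Real.log ‖MS.E n β j 0‖)).card : ℕ) : ℝ) ≤
          ((((Finset.Icc 1 t).filter (fun j => s ≤ 1 - ‖a j‖ ∧ h / 2 ≤ 1 - ‖MS.E n β j 0‖)).card : ℕ) : ℝ) := by
        exact_mod_cast Finset.card_le_card hsub
      refine h1.trans ((hCNT.ps s (h / 2) hs hs1 (by linarith) (by linarith)).trans ?_)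
      have h2 : (h / 2) ^ (-A) = h ^ (-A) * 2 ^ A := by
        rw [Real.div_rpow hh.le (by norm_num), Real.rpow_neg (by norm_num : (0 : ℝ) ≤ 2), div_inv_eq_mul]
      rw [h2]
      apply le_of_eq
      ring
    · intro j hj
      rw [Finset.mem_Icc] at hj
      refine (hCNT.lb j hj.1 hj.2).trans ?_
      have h1 : 0 ≤ Real.log (1 / (1 - ‖a j‖)) := hlog0 _ (by linarith [hamem j hj.2]) (by linarith [norm_nonneg (a j)])
      exact mul_le_mul_of_nonneg_right hC' (by linarith)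
  have hsum2 : ∑ j ∈ (Finset.Icc 1 t).filter (fun j => θ' < ‖a j‖), (1 - ‖a j‖) * (-Real.log ‖MS.E n β j 0‖) ≤ m / (2 * CM) := by
    refine le_trans ?_ hsum
    apply Finset.sum_le_sum_of_subset_of_nonneg
    · intro j hj
      rw [Finset.mem_filter] at hj ⊢
      exact ⟨hj.1, by linarith [hj.2]⟩
    · intro j hj _
      rw [Finset.mem_filter, Finset.mem_Icc] at hj
      exact mul_nonneg (by linarith [hamem j hj.1.2]) (hγ j hj.1.1 hj.1.2)
  -- the zero
  have hzero : ∃ e ∈ HY.UD, MS.E n β t e = 0 ∧ ‖HY.T (a t) e‖ ≤ q := by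
    by_cases h0 : a 0 = 0
    · refine ⟨a t, hO.mem t le_rfl, ?_, ?_⟩
      · rw [CORE_orb n β a t hO t le_rfl, h0]
      · have : HY.T (a t) (a t) = 0 := by simp [HY.T]
        rw [this, norm_zero]
        exact hq0.le
    · obtain ⟨e, he, he0, hel⟩ := hM β a t θ' hO h0 hCNT.ne hθ'2 hθ'1
      refine ⟨e, he, he0, ?_⟩
      have h1 : m ≤ -Real.log ‖a 0‖ := by
        have := Real.log_le_sub_one_of_pos (norm_pos_iff.2 h0)
        linarith
      have h2 : CM * ∑ j ∈ (Finset.Icc 1 t).filter (fun j => θ' < ‖a j‖), (1 - ‖a j‖) * (-Real.log ‖MS.E n β j 0‖) ≤ m / 2 := by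
        calc _ ≤ CM * (m / (2 * CM)) := mul_le_mul_of_nonneg_left hsum2 hCM.le
          _ = m / 2 := by field_simp
      have h3 : ((Finset.Icc 1 t).filter (fun j => ‖a j‖ ≤ θ')).card ≤ N₀ := by
        apply Nat.le_floor
        have hsub : (Finset.Icc 1 t).filter (fun j => ‖a j‖ ≤ θ') ⊆ (Finset.Icc 1 t).filter (fun j => 1 - θ' ≤ 1 - ‖a j‖) := by
          intro j hj
          rw [Finset.mem_filter] at hj ⊢
          exact ⟨hj.1, by linarith [hj.2]⟩
        calc ((((Finset.Icc 1 t).filter (fun j => ‖a j‖ ≤ θ')).card : ℕ) : ℝ)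
            ≤ ((((Finset.Icc 1 t).filter (fun j => 1 - θ' ≤ 1 - ‖a j‖)).card : ℕ) : ℝ) := by
              exact_mod_cast Finset.card_le_card hsub
          _ ≤ _ := hCNT.cnt (1 - θ') (by linarith) (by linarith)
      have h4 : δ₀ ≤ -Real.log ‖HY.T (a t) e‖ := by
        refine le_trans ?_ hel
        rw [hδ₀]
        apply div_le_div₀
        · linarith
        · linarith
        · positivity
        · exact pow_le_pow_right₀ hn1 h3
      by_cases h5 : ‖HY.T (a t) e‖ = 0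
      · rw [h5]
        exact hq0.le
      · have h6 : 0 < ‖HY.T (a t) e‖ := lt_of_le_of_ne (norm_nonneg _) (Ne.symm h5)
        rw [hq, ← Real.exp_log h6]
        exact Real.exp_le_exp.2 (by linarith)
  obtain ⟨e, he, he0, heq⟩ := hzero
  have hloss : c₁ ≤ ‖deriv (MS.E n β t) e‖ * (1 - ‖e‖ ^ 2) := by
    apply hL β a t e hO he he0 heq
    · apply hB (Finset.Icc 1 t) (fun j => 1 - ‖a j‖)
      · intro j hj
        rw [Finset.mem_Icc] at hj
        exact ⟨by linarith [hamem j hj.2], by linarith [norm_nonneg (a j)]⟩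
      · exact hCNT.cnt
    · intro j h1 h2 h3
      rw [hv₀, ← Real.exp_log (hEpos j h1 h2)]
      apply Real.exp_le_exp.2
      have h4 := hCNT.lb j h1 h2
      have hq2 : 0 < (1 - q) ^ 2 := by
        have : 0 < 1 - q := by linarith
        positivity
      have h5 : Real.log (1 / (1 - ‖a j‖)) ≤ Real.log (4 / (1 - q) ^ 2) := by
        apply Real.log_le_log
        · have : 0 < 1 - ‖a j‖ := by linarith [hamem j h2]
          positivity
        · rw [div_le_div_iff₀ (by linarith [hamem j h2]) hq2]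
          linarith
      have h6 : C * (1 + Real.log (1 / (1 - ‖a j‖))) ≤ C * (1 + Real.log (4 / (1 - q) ^ 2)) :=
        mul_le_mul_of_nonneg_left (by linarith) hC.le
      linarith
  obtain ⟨G, hG1, hG2, hG3⟩ := hG (MS.E n β t) e hE.1 hE.2 he he0 hloss
  exact ⟨G, hG1, hG3, by rw [hG2]; exact heq⟩

end MA
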