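import Pool.Agent.helper94.MA.SpecD
import Pool.Agent.helper52.ED.SpecP

/-!
# Density of hyperbolicity for `z ^ n + c`: the assembly via Theorem A (block mm:)
-/

set_option autoImplicit false

open Complex Metric Set Filter Topology MeasureTheory
open Pool.Agent.helper98.ILF Pool.Agent.helper16.Multibrot
open HY (UD T S hd UN RM VV SG Orb fz)

noncomputable section

namespace MA

/-- the branches with bounded geometry exist for some `M` for which the clean balls exist. -/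
theorem FIN2_bra (hCLM : ED.CLM_stmt) (hPS : ED.PS_stmt) (hCTG : ED.CTG_stmt) (hTHA : THA_stmt) :
    ∀ n : ℕ, 2 ≤ n → ∀ r > (0 : ℝ), ∃ M : ℕ, 1 ≤ M ∧ DH.CL n r M ∧ BRA n r M := by
  intro n hn r hr
  obtain ⟨M, hM, hCL⟩ := hCLM n hn r hr
  have hCL1 := hCL M le_rfl
  obtain ⟨C, θ, E, hC, -, hθ1, hps⟩ := hPS n r M hn hr hM hCL1
  obtain ⟨C', hC', hct⟩ := hCTG n r M hn hr hM hCL1
  refine ⟨M, hM, hCL1, ?_⟩
  have h1 : CTG n r M (max C C') := by
    intro c hc hdis Φ b k p t hFA g hg hg1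
    refine (hct c hc hdis Φ b k p t hFA g hg hg1).trans ?_
    have hlog : 0 ≤ Real.log (1 / g) := by
      apply Real.log_nonneg
      rw [le_div_iff₀ hg]
      linarith
    rw [div_eq_mul_inv]
    have : 0 < g⁻¹ := inv_pos.2 hg
    have h2 : C' ≤ max C C' := le_max_right _ _
    gcongr
  have h2 : PSH n r M (max C C') θ (E : ℝ) := by
    intro c hc hdis Φ b k p t hFA g s hg hg1 hs hs1
    refine (hps c hc hdis Φ b k p t hFA g s hg hg1 hs hs1).trans ?_
    have h3 : (1 / s) ^ E = s ^ (-(E : ℝ)) := by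
      rw [Real.rpow_neg hs.le, Real.rpow_natCast, one_div, inv_pow]
    rw [h3]
    have h4 : 0 < g ^ (-θ) := Real.rpow_pos_of_pos hg _
    have h5 : 0 < s ^ (-(E : ℝ)) := Real.rpow_pos_of_pos hs _
    have h6 : C ≤ max C C' := le_max_left _ _
    gcongr
  exact hTHA n r M (max C C') θ (E : ℝ) hn hr hM hθ1 h1 h2

/-- THE THEOREM (density of hyperbolicity for `z ^ n + c`), from the rows of the blocks ed:, mm:, dh:. -/
theorem FIN2 (hCLM : ED.CLM_stmt) (hPS : ED.PS_stmt) (hCTG : ED.CTG_stmt) (hTHA : THA_stmt) (hTOW : DH.TOW_stmt)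
    (hFAE : DH.FAE_stmt) (hCON : DH.CON_stmt) (hEN1 : DH.EN1_stmt) (hTYQ : DH.TYQ_stmt) : DH.FIN_stmt := by
  intro n hn c hc
  by_contra hcl
  obtain ⟨r, hr, hdis⟩ : ∃ r : ℝ, 0 < r ∧ Disjoint (ball c r) (hyperbolic n) := by
    rw [Metric.mem_closure_iff] at hcl
    push Not at hcl
    obtain ⟨r, hr, h'⟩ := hcl
    refine ⟨r, hr, Set.disjoint_left.2 fun b hb hb' => ?_⟩
    have := h' b hb'
    rw [mem_ball, dist_comm] at hb
    linarith
  obtain ⟨M, hM, hCL, c₂, K, hc₂, hc₂', hK, hB⟩ := FIN2_bra hCLM hPS hCTG hTHA n hn r hr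
  obtain ⟨Φ, b, hT⟩ := hTOW n c hn hc
  obtain ⟨μ, x, hx⟩ := hTYQ n hn c hc hcl
  have hcst : DH.CST μ := by
    apply hCON n c Φ b μ x c₂ K hT hx.int hx.meas hx.bd hx.val hx.inv hx.den hc₂ hc₂' hK
    intro k
    obtain ⟨t, ht⟩ := hFAE n c Φ b M k x hM hT hx.mem hx.rcx
    obtain ⟨X, h1, h2, h3, h4, h5⟩ := hB c hc hdis Φ b k x t ht hx.ar
    exact ⟨t, X, h1, h2, h3, h4, h5⟩
  exact hEN1 n r M c Φ b μ hM hCL hT hdis hx.int hx.crit hx.meas hx.bd hx.inv hcst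

end MA
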