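import Pool.Agent.helper94.MA.SpecD
import Pool.Agent.helper45.MM.Core

/-!
# Block mm:, module THA: Theorem A (the branch over a disc around `0`) from the count and the power saving
-/

set_option autoImplicit false

open Complex Metric Set Filter Topology MeasureTheory
open Pool.Agent.helper98.ILF Pool.Agent.helper16.Multibrot
open HY (UD T S hd UN RM VV SG Orb fz)

noncomputable section

namespace MA

theorem BRI (hMOB : HY.MOB_stmt) : BRI_stmt := by
  intro n c Φ b hT k j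
  induction j with
  | zero =>
    intro w hw
    exact ⟨hw, rfl⟩
  | succ j ih =>
    intro w hw
    have hn := hT.hn
    have hwn : w ^ n ∈ UD := by
      have hw' : ‖w‖ < 1 := by simpa [UD] using hw
      simp only [UD, mem_ball_zero_iff, norm_pow]
      exact pow_lt_one₀ (norm_nonneg _) hw' (by omega)
    obtain ⟨h1, -⟩ := hMOB (b (k + j)) (hT.hb (k + j))
    have h2 : MS.Bm n (b (k + j)) w ∈ UD := (h1 _ hwn).2.1
    obtain ⟨h3, h4⟩ := ih _ h2
    refine ⟨h3, ?_⟩
    show Φ k (MS.E n (fun i => b (k + i)) j (MS.Bm n (b (k + j)) w)) = _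
    rw [h4]
    have h5 := hT.rel (k + j) w hw
    show (fz n c)^[j] (Φ (k + j) (S (b (k + j)) (w ^ n))) = (fz n c)^[j + 1] (Φ (k + (j + 1)) w)
    rw [← h5, Function.iterate_succ_apply]
    rfl

/-- the lower bound of the position of the obstacle. -/
theorem THA_lb (qE CE α v : ℝ) (hq : 0 < qE) (hCE : 0 < CE) (hα : 0 < α) (hα1 : α ≤ 1) (_hv0 : 0 ≤ v)
    (h : ∀ B : ℝ, 0 < B → B ≤ 1 → v < B → α ≤ CE * B ^ qE) :
    0 < v ∧ -Real.log v ≤ ((|Real.log CE| + 1) / qE + 1) * (1 + Real.log (1 / α)) := by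
  have hla : 0 ≤ Real.log (1 / α) := by
    apply Real.log_nonneg
    rw [le_div_iff₀ hα]
    linarith
  have hlaE : Real.log (1 / α) = -Real.log α := by
    rw [one_div, Real.log_inv]
  -- for every `B > v`, `B ≤ 1`
  have hB : ∀ B : ℝ, 0 < B → B ≤ 1 → v < B → -Real.log B ≤ (|Real.log CE| + Real.log (1 / α)) / qE := by
    intro B hB0 hB1 hvB
    have h1 := h B hB0 hB1 hvB
    have h2 : Real.log α ≤ Real.log CE + qE * Real.log B := by
      have h3 := Real.log_le_log hα h1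
      rw [Real.log_mul hCE.ne' (Real.rpow_pos_of_pos hB0 _).ne', Real.log_rpow hB0] at h3
      exact h3
    rw [le_div_iff₀ hq, hlaE]
    have := le_abs_self (Real.log CE)
    nlinarith
  set D : ℝ := (|Real.log CE| + Real.log (1 / α)) / qE with hD
  have hD0 : 0 ≤ D := by
    rw [hD]
    have := abs_nonneg (Real.log CE)
    positivity
  have hvp : Real.exp (-(D + 1)) ≤ v := by
    by_contra hcon
    push Not at hcon
    have h1 := hB (Real.exp (-(D + 1))) (Real.exp_pos _) (by rw [Real.exp_le_one_iff]; linarith) hcon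
    rw [Real.log_exp] at h1
    linarith
  have hv1 : 0 < v := lt_of_lt_of_le (Real.exp_pos _) hvp
  refine ⟨hv1, ?_⟩
  have h2 : -Real.log v ≤ D + 1 := by
    have h3 := Real.log_le_log (Real.exp_pos _) hvp
    rw [Real.log_exp] at h3
    linarith
  refine h2.trans ?_
  have h4 : D ≤ (|Real.log CE| + 1) / qE * (1 + Real.log (1 / α)) := by
    rw [hD, div_mul_eq_mul_div]
    apply div_le_div_of_nonneg_right _ hq.le
    have := abs_nonneg (Real.log CE)
    nlinarith
  nlinarith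

theorem THA (hMOB : HY.MOB_stmt) (hHDI : HY.HDI_stmt) (hKO3 : V3.KO3_stmt) (hCOP : DH.COP_stmt) (hBTP : DH.BTP_stmt)
    (hETB : DH.ETB_stmt) (hCORE : CORE_stmt) : THA_stmt := by
  intro n r M C γ A hn hr hM hγ hCTG hPSH
  obtain ⟨qE, CE, hqE, hCE, hE⟩ := hETB
  set L : ℝ := (|Real.log CE| + 1) / qE + 1 with hL
  set C₀ : ℝ := max (max C 1) L with hC₀
  set θ : ℝ := 1 - max γ 0 with hθ
  set A₀ : ℝ := max A 1 with hA₀
  have hθ0 : 0 < θ := by
    rw [hθ, sub_pos, max_lt_iff]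
    exact ⟨hγ, by norm_num⟩
  have hθ1 : θ ≤ 1 := by
    have := le_max_right γ 0
    linarith
  have hC₀1 : 1 ≤ C₀ := (le_max_right C 1).trans (le_max_left _ _)
  have hC₀C : C ≤ C₀ := (le_max_left C 1).trans (le_max_left _ _)
  have hC₀L : L ≤ C₀ := le_max_right _ _
  have hA₀1 : 1 ≤ A₀ := le_max_right _ _
  have hA₀A : A ≤ A₀ := le_max_left _ _
  obtain ⟨c₂, q, hc₂, hc₂1, hq0, hq1, hcore⟩ := hCORE n hn C₀ A₀ θ ((1 / 2 : ℝ) ^ M) (by linarith) (by linarith) hθ0 hθ1 (by positivity)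
  obtain ⟨K, hK, hOUT⟩ := Pool.Agent.helper45.MM.OUTC hMOB hKO3 q hq0 hq1 (c₂ / 2) (by positivity)
  refine ⟨c₂ / 2, K, by positivity, by linarith, hK, ?_⟩
  intro c hc hdis Φ b k p t hFA hAR
  have hT := hFA.tow
  have hp := hFA.mem
  obtain ⟨hB1, hB2⟩ := hBTP n c Φ b hT
  obtain ⟨-, hyv, hyle, -⟩ := hB2 k t p hp
  have hBR := BRI hMOB n c Φ b hT
  have hlog0 : ∀ s : ℝ, 0 < s → s ≤ 1 → 0 ≤ Real.log (1 / s) := by
    intro s hs hs1
    apply Real.log_nonneg
    rw [le_div_iff₀ hs]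
    linarith
  set β : ℕ → ℂ := fun i => b (k + i) with hβ
  set a : ℕ → ℂ := fun j => DH.yv Φ n c (k + j) p (t - j) with ha
  have haj : ∀ j, a j ∈ UD ∧ Φ (k + j) (a j) = (fz n c)^[t - j] p := fun j => (hyv (k + j) (t - j))
  have h0 : (0 : ℂ) ∈ UD := by simp [UD]
  have hv : ∀ j, MS.E n β j 0 = DH.yv Φ n c k 0 j := by
    intro j
    obtain ⟨h1, h2⟩ := hBR k j 0 h0
    obtain ⟨-, -, -, -, h3, -⟩ := hCOP _ _ _ (hT.rm k)
    have h4 : (Φ (k + j)) 0 = 0 := (hT.rm (k + j)).val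
    rw [h4] at h2
    have h5 := (h3 _ h1).2
    rw [h2] at h5
    exact h5.symm
  have hinj : ∀ l, InjOn (Φ l) UD := fun l => (hT.rm l).inj
  have hO : MS.OrbD n β a t := by
    refine ⟨fun j _ => hT.hb (k + j), fun j _ => (haj j).1, ?_⟩
    intro j hj
    have hx := haj (j + 1)
    have hxn : (a (j + 1)) ^ n ∈ UD := by
      have hw' : ‖a (j + 1)‖ < 1 := by simpa [UD] using hx.1
      simp only [UD, mem_ball_zero_iff, norm_pow]
      exact pow_lt_one₀ (norm_nonneg _) hw' (by omega)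
    have h1 : S (b (k + j)) ((a (j + 1)) ^ n) ∈ UD := ((hMOB _ (hT.hb (k + j))).1 _ hxn).2.1
    have h2 : Φ (k + j) (S (b (k + j)) ((a (j + 1)) ^ n)) = (fz n c)^[t - j] p := by
      rw [← hT.rel (k + j) _ hx.1]
      have h3 : Φ (k + j + 1) (a (j + 1)) = (fz n c)^[t - (j + 1)] p := hx.2
      rw [h3]
      have h4 : t - j = (t - (j + 1)) + 1 := by omega
      rw [h4, Function.iterate_succ_apply']
    exact hinj (k + j) (haj j).1 h1 ((haj j).2.trans h2.symm)
  -- the index change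
  have hidx : ∀ j, 1 ≤ j → j ≤ t → k + t - (t - j) = k + j ∧ t - (t - j) = j := by
    intro j h1 h2
    omega
  have hE' : ∀ j, 1 ≤ j → j ≤ t → 0 < ‖MS.E n β j 0‖ ∧ -Real.log ‖MS.E n β j 0‖ ≤ L * (1 + Real.log (1 / (1 - ‖a j‖))) := by
    intro j h1 h2
    have h3 : ‖a j‖ < 1 := by simpa [UD] using (haj j).1
    apply THA_lb qE CE (1 - ‖a j‖) ‖MS.E n β j 0‖ hqE hCE (by linarith) (by linarith [norm_nonneg (a j)]) (norm_nonneg _)
    intro B hB0 hB1' hvB
    have h4 : (t - j) ∈ DH.REL Φ n c k t B := by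
      rw [DH.REL, Finset.mem_filter, Finset.mem_range]
      refine ⟨by omega, ?_⟩
      rw [(hidx j h1 h2).2, ← hv j]
      exact hvB
    have h5 := hE n c Φ b M k p t hM hFA hAR B hB0 hB1' (t - j) h4
    rw [(hidx j h1 h2).1] at h5
    exact h5
  have hfar : ∀ j, 1 ≤ j → j ≤ t → 1 / 2 ≤ ‖a j‖ := by
    intro j h1 h2
    have h3 := (hyle k (k + j) (t - j) (by omega)).2
    have h4 := hFA.far (t - j) (by omega)
    have h5 : (1 / 2 : ℝ) ^ M ≤ 1 / 2 := by
      calc (1 / 2 : ℝ) ^ M ≤ (1 / 2 : ℝ) ^ 1 := pow_le_pow_of_le_one (by norm_num) (by norm_num) hM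
        _ = 1 / 2 := by norm_num
    show 1 / 2 ≤ ‖DH.yv Φ n c (k + j) p (t - j)‖
    linarith
  have hcard : ∀ (P : ℕ → Prop) (Q : ℕ → Prop) [DecidablePred P] [DecidablePred Q], (∀ j, 1 ≤ j → j ≤ t → P j → Q (t - j)) →
      ((((Finset.Icc 1 t).filter P).card : ℕ) : ℝ) ≤ ((((Finset.range t).filter Q).card : ℕ) : ℝ) := by
    intro P Q _ _ hPQ
    have : ((Finset.Icc 1 t).filter P).card ≤ ((Finset.range t).filter Q).card := by
      apply Finset.card_le_card_of_injOn (fun j => t - j)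
      · intro j hj
        rw [Finset.mem_coe, Finset.mem_filter, Finset.mem_Icc] at hj
        show t - j ∈ _
        rw [Finset.mem_coe, Finset.mem_filter, Finset.mem_range]
        exact ⟨by omega, hPQ j hj.1.1 hj.1.2 hj.2⟩
      · intro j hj j' hj' hjj
        rw [Finset.mem_coe, Finset.mem_filter, Finset.mem_Icc] at hj hj'
        simp only at hjj
        omega
    exact_mod_cast this
  have hCNT : CNT n β a t C₀ A₀ θ := by
    refine ⟨hfar, fun j h1 h2 => norm_pos_iff.1 (hE' j h1 h2).1, ?_, ?_, ?_⟩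
    · intro s hs hs1
      refine (hcard _ (fun i => s ≤ 1 - ‖DH.yv Φ n c (k + t - i) p i‖) ?_).trans ((hCTG c hc hdis Φ b k p t hFA s hs hs1).trans ?_)
      · intro j h1 h2 h3
        show s ≤ 1 - ‖DH.yv Φ n c (k + t - (t - j)) p (t - j)‖
        rw [(hidx j h1 h2).1]
        exact h3
      · have h4 : 0 ≤ s⁻¹ * (1 + Real.log (1 / s)) := by
          have := hlog0 s hs hs1
          positivity
        calc C * s⁻¹ * (1 + Real.log (1 / s)) = C * (s⁻¹ * (1 + Real.log (1 / s))) := by ring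
          _ ≤ C₀ * (s⁻¹ * (1 + Real.log (1 / s))) := mul_le_mul_of_nonneg_right hC₀C h4
          _ = C₀ * s⁻¹ * (1 + Real.log (1 / s)) := by ring
    · intro s h hs hs1 hh hh1
      refine (hcard _ (fun i => s ≤ 1 - ‖DH.yv Φ n c (k + t - i) p i‖ ∧ h ≤ 1 - ‖DH.yv Φ n c k 0 (t - i)‖) ?_).trans
        ((hPSH c hc hdis Φ b k p t hFA s h hs hs1 hh hh1).trans ?_)
      · intro j h1 h2 h3
        show s ≤ 1 - ‖DH.yv Φ n c (k + t - (t - j)) p (t - j)‖ ∧ h ≤ 1 - ‖DH.yv Φ n c k 0 (t - (t - j))‖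
        rw [(hidx j h1 h2).1, (hidx j h1 h2).2, ← hv j]
        exact h3
      · have h5 : s ^ (-γ) ≤ s ^ (θ - 1) := by
          apply Real.rpow_le_rpow_of_exponent_ge hs hs1
          have := le_max_left γ 0
          linarith
        have h6 : h ^ (-A) ≤ h ^ (-A₀) := by
          apply Real.rpow_le_rpow_of_exponent_ge hh hh1
          linarith
        have h7 : 0 < s ^ (-γ) := Real.rpow_pos_of_pos hs _
        have h8 : 0 < h ^ (-A) := Real.rpow_pos_of_pos hh _
        have h9 := hlog0 s hs hs1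
        calc C * s ^ (-γ) * h ^ (-A) ≤ C₀ * s ^ (-γ) * h ^ (-A) := by gcongr
          _ ≤ C₀ * s ^ (θ - 1) * h ^ (-A₀) := by gcongr
          _ = C₀ * 1 * s ^ (θ - 1) * h ^ (-A₀) := by ring
          _ ≤ C₀ * (1 + Real.log (1 / s)) * s ^ (θ - 1) * h ^ (-A₀) := by
            have h10 : 0 < s ^ (θ - 1) := Real.rpow_pos_of_pos hs _
            have h11 : 0 < h ^ (-A₀) := Real.rpow_pos_of_pos hh _
            gcongr
            linarith
    · intro j h1 h2
      refine (hE' j h1 h2).2.trans ?_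
      have h3 : ‖a j‖ < 1 := by simpa [UD] using (haj j).1
      have h4 := hlog0 (1 - ‖a j‖) (by linarith) (by linarith [norm_nonneg (a j)])
      exact mul_le_mul_of_nonneg_right hC₀L (by linarith)
  have hnear : (1 / 2 : ℝ) ^ M ≤ 1 - ‖a 0‖ := hFA.near.le
  obtain ⟨G, hG, hEG, hGq⟩ := hcore β a t hO hnear hCNT
  -- the map
  have hG2m : ∀ y ∈ UD, y / 2 ∈ UD := by
    intro y hy
    have : ‖y‖ < 1 := by simpa [UD] using hy
    simp only [UD, mem_ball_zero_iff, norm_div]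
    norm_num
    linarith
  have hG2 : UN (fun y => G (y / 2)) := by
    refine ⟨hG.dif.comp (differentiableOn_id.div_const 2) hG2m, ?_, fun y hy => hG.map (hG2m y hy)⟩
    intro x hx y hy hxy
    have := hG.inj (hG2m x hx) (hG2m y hy) hxy
    field_simp at this
    exact this
  have hE2 : ∀ y ∈ UD, MS.E n β t (G (y / 2)) = (c₂ / 2 : ℝ) * y := by
    intro y hy
    rw [hEG _ (hG2m y hy)]
    push_cast
    ring
  have hG0 : G ((0 : ℂ) / 2) = G 0 := by norm_num
  have heUD : G 0 ∈ UD := hG.map h0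
  have hTe : ‖T (G 0) (a t)‖ ≤ q := by
    have := (hMOB (G 0) heUD).2.2.2.2.2.2.2.2.1 (a t) (haj t).1
    rw [this]
    exact hGq
  -- Schwarz-Pick
  have hEd : DifferentiableOn ℂ (MS.E n β t) UD ∧ MapsTo (MS.E n β t) UD UD := by
    have key : ∀ j : ℕ, DifferentiableOn ℂ (MS.E n β j) UD ∧ MapsTo (MS.E n β j) UD UD := by
      intro j
      induction j with
      | zero => exact ⟨differentiableOn_id, fun w hw => hw⟩
      | succ j ih =>
        have hpow : MapsTo (fun w : ℂ => w ^ n) UD UD := by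
          intro w hw
          have hw' : ‖w‖ < 1 := by simpa [UD] using hw
          show w ^ n ∈ UD
          simp only [UD, mem_ball_zero_iff, norm_pow]
          exact pow_lt_one₀ (norm_nonneg _) hw' (by omega)
        have h3 : DifferentiableOn ℂ (MS.Bm n (β j)) UD :=
          (hMOB _ (hT.hb (k + j))).2.2.2.2.1.comp (differentiableOn_pow n) hpow
        have h4 : MapsTo (MS.Bm n (β j)) UD UD := fun w hw => ((hMOB _ (hT.hb (k + j))).1 _ (hpow hw)).2.1
        exact ⟨ih.1.comp h3 h4, ih.2.comp h4⟩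
    exact key t
  have hUDo : IsOpen UD := isOpen_ball
  have hderiv : (c₂ / 2) * (1 - ‖G 0‖ ^ 2) ≤ ‖deriv (fun y => G (y / 2)) 0‖ := by
    have hF0 : MS.E n β t (G 0) = 0 := by
      have := hEG 0 h0
      rw [mul_zero] at this
      exact this
    have hsp := hHDI.2.1 (MS.E n β t) (fun z => z) (G 0) hEd.1 hEd.2 differentiableAt_fun_id heUD
    have he1 : ‖G 0‖ < 1 := by simpa [UD] using heUD
    have he2 : 0 < 1 - ‖G 0‖ ^ 2 := by nlinarith [norm_nonneg (G 0)]
    have hsp2 : ‖deriv (MS.E n β t) (G 0)‖ ≤ 1 / (1 - ‖G 0‖ ^ 2) := by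
      have : hd (fun z => MS.E n β t z) (G 0) = ‖deriv (MS.E n β t) (G 0)‖ := by
        simp only [hd]
        rw [hF0]
        simp
      rw [this] at hsp
      refine hsp.trans ?_
      simp only [hd]
      rw [deriv_id'']
      simp
    have hGd : DifferentiableAt ℂ G 0 := (hG.dif 0 h0).differentiableAt (hUDo.mem_nhds h0)
    have hG2d : DifferentiableAt ℂ (fun y => G (y / 2)) 0 := (hG2.dif 0 h0).differentiableAt (hUDo.mem_nhds h0)
    have hEda : DifferentiableAt ℂ (MS.E n β t) (G (0 / 2)) := by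
      rw [hG0]
      exact (hEd.1 _ heUD).differentiableAt (hUDo.mem_nhds heUD)
    have hch : deriv (fun y => MS.E n β t (G (y / 2))) 0 = deriv (MS.E n β t) (G 0) * deriv (fun y => G (y / 2)) 0 := by
      have := deriv_comp (h₂ := MS.E n β t) (h := fun y => G (y / 2)) (0 : ℂ) hEda hG2d
      rw [hG0] at this
      exact this
    have hch2 : deriv (fun y => MS.E n β t (G (y / 2))) 0 = ((c₂ / 2 : ℝ) : ℂ) := by
      have h1 : (fun y => MS.E n β t (G (y / 2))) =ᶠ[𝓝 0] (fun y => ((c₂ / 2 : ℝ) : ℂ) * y) := by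
        filter_upwards [hUDo.mem_nhds h0] with y hy
        exact hE2 y hy
      rw [h1.deriv_eq]
      simp
    have h3 : ‖deriv (MS.E n β t) (G 0)‖ * ‖deriv (fun y => G (y / 2)) 0‖ = c₂ / 2 := by
      rw [← norm_mul, ← hch, hch2, Complex.norm_real, Real.norm_eq_abs, abs_of_pos (by positivity)]
    have h4 : c₂ / 2 ≤ 1 / (1 - ‖G 0‖ ^ 2) * ‖deriv (fun y => G (y / 2)) 0‖ := by
      rw [← h3]
      exact mul_le_mul_of_nonneg_right hsp2 (norm_nonneg _)
    rw [div_mul_eq_mul_div, one_mul, le_div_iff₀ he2] at h4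
    exact h4
  obtain ⟨h1, h2, -, h3⟩ := hOUT (Φ (k + t)) (fun y => G (y / 2)) (G 0) (a t) (hT.rm (k + t)).dif (hT.rm (k + t)).inj heUD (haj t).1 hTe
    hG2 hG0 hderiv
  refine ⟨fun y => Φ (k + t) (G (y / 2)), h1, h2, ?_, ?_, ?_⟩
  · intro y hy
    have h4 := (hBR k t (G (y / 2)) (hG.map (hG2m y hy))).2
    rw [← h4]
    show Φ k (MS.E n β t (G (y / 2))) = _
    rw [hE2 y hy]
  · intro y hy
    have h4 := (hT.rm (k + t)).img
    rw [← h4]
    exact mem_image_of_mem _ (hG.map (hG2m y hy))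
  · have h4 : Φ (k + t) (a t) = p := by
      have := (haj t).2
      rw [Nat.sub_self] at this
      exact this
    rw [← h4]
    exact h3

end MA
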