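import Pool.Agent.helper36.MS.Defs

/-!
# Project ed:, block mm: (architect helper94), pure part: SUMR, OSI, OSL, CORE

Paper: /team-store/MP_af9036_SHORTEND_helper94.md sections 3, 4, 5. Definitions `MS.Bm`, `MS.E`, `MS.OrbD` and the statements MASS, LOSS, LANDAU: Pool/Agent/helper36/MS/Defs.lean.
Everything here is about finitely many points of the unit disc: no dynamics. File `Pool/Agent/<seat>/MA/XX.lean`, `namespace MA`, `theorem XX (h : YY_stmt) ... : XX_stmt`.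
-/

set_option autoImplicit false

open Complex Metric Set Filter Topology

noncomputable section

namespace MA

/-- SUMR: the bookkeeping (pure real analysis). `g j = 1 - ‖a j‖`, `γ j = -log ‖E n β j 0‖`. Owner helper26.
PROOF. Dyadic classes: for `j` with `g j ≤ u` let `m` be the number with `2^(-m-1) < g j ≤ 2^(-m)`; `m ≥ m₀` where `2^(-m₀-1) < u`. `δ = θ/(2A)`.
Terms of the class `m` with `γ j < 2^(-δ m)`: each is `≤ 2^(-m) 2^(-δ m)`, their number is `≤ C 2^(m+1) (1 + (m+1) log 2)` (first count with `s = 2^(-m-1)`): total `≤ 2 C (m+2) 2^(-δ m)`.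
Terms with `γ j ≥ 2^(-δ m) =: h`: number `≤ C (m+2) 2^((m+1)(1-θ)) 2^(A δ m)` (second count, same `s`), each `≤ 2^(-m) C (m+2)`: total `≤ 2 C² (m+2)² 2^(-θ m + θ m/2) = 2 C² (m+2)² 2^(-θ m/2)`.
Both are terms of convergent series (`summable_pow_mul_geometric_of_norm_lt_one` or bound `(m+2)² ≤ C' q^(-m)`), so the sum over `m ≥ m₀` is `≤ ε` for `m₀` large (tail of a summable series), `u = 2^(-m₀-1)·(3/2)` or simply `u = 2^(-m₀)`. -/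
def SUMR_stmt : Prop := ∀ (C A θ ε : ℝ), 0 < C → 0 < A → 0 < θ → θ ≤ 1 → 0 < ε → ∃ u : ℝ, 0 < u ∧ u < 1 ∧
  ∀ (ι : Finset ℕ) (g γ : ℕ → ℝ), (∀ j ∈ ι, 0 < g j ∧ g j ≤ 1 ∧ 0 ≤ γ j) →
  (∀ s : ℝ, 0 < s → s ≤ 1 → (((ι.filter (fun j => s ≤ g j)).card : ℕ) : ℝ) ≤ C * s⁻¹ * (1 + Real.log (1 / s))) →
  (∀ s h : ℝ, 0 < s → s ≤ 1 → 0 < h → h ≤ 1 →
    (((ι.filter (fun j => s ≤ g j ∧ h ≤ γ j)).card : ℕ) : ℝ) ≤ C * (1 + Real.log (1 / s)) * s ^ (θ - 1) * h ^ (-A)) →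
  (∀ j ∈ ι, γ j ≤ C * (1 + Real.log (1 / g j))) →
  ∑ j ∈ ι.filter (fun j => g j ≤ u), g j * γ j ≤ ε

/-- SQR: the sum of the squares from the count (pure real analysis).
PROOF. Dyadic classes as in SUMR: `∑ g² ≤ ∑_m 4^(-m) C 2^(m+1) (m+2) = 2 C ∑_m (m+2) 2^(-m) = 8 C`. -/
def SQR_stmt : Prop := ∀ C : ℝ, 0 < C → ∃ B : ℝ, 0 < B ∧ ∀ (ι : Finset ℕ) (g : ℕ → ℝ), (∀ j ∈ ι, 0 < g j ∧ g j ≤ 1) →
  (∀ s : ℝ, 0 < s → s ≤ 1 → (((ι.filter (fun j => s ≤ g j)).card : ℕ) : ℝ) ≤ C * s⁻¹ * (1 + Real.log (1 / s))) →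
  ∑ j ∈ ι, g j ^ 2 ≤ B

/-- the counting data of an orbit of the model: first count, second count, lower bound of the positions of the orbit of `0`. -/
structure CNT (n : ℕ) (β a : ℕ → ℂ) (t : ℕ) (C A θ : ℝ) : Prop where
  half : ∀ j, 1 ≤ j → j ≤ t → 1 / 2 ≤ ‖a j‖
  ne : ∀ j, 1 ≤ j → j ≤ t → MS.E n β j 0 ≠ 0
  cnt : ∀ s : ℝ, 0 < s → s ≤ 1 →
    ((((Finset.Icc 1 t).filter (fun j => s ≤ 1 - ‖a j‖)).card : ℕ) : ℝ) ≤ C * s⁻¹ * (1 + Real.log (1 / s))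
  ps : ∀ s h : ℝ, 0 < s → s ≤ 1 → 0 < h → h ≤ 1 →
    ((((Finset.Icc 1 t).filter (fun j => s ≤ 1 - ‖a j‖ ∧ h ≤ 1 - ‖MS.E n β j 0‖)).card : ℕ) : ℝ) ≤
      C * (1 + Real.log (1 / s)) * s ^ (θ - 1) * h ^ (-A)
  lb : ∀ j, 1 ≤ j → j ≤ t → -Real.log ‖MS.E n β j 0‖ ≤ C * (1 + Real.log (1 / (1 - ‖a j‖)))

/-- CORE: Theorem A in the coordinates of the disc. Uses `MS.MASS_stmt`, `MS.LOSS_stmt`, `MS.LANDAU_stmt`, SUMR, SQR, `HY.MOB_stmt`. Owner helper94.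
PROOF. `ε = m/(2 C_M)` in SUMR (`C_M` from MASS), `θ' = max (1-u) (1/2)`. MASS (if `a 0 ≠ 0`): `e` with `-log ‖T (a t) e‖ ≥ (m/2)/n^N`, `N ≤` the count at `s = 1-θ'`. If `a 0 = 0`: `e = a t`. `q = exp(-(m/2) n^(-N))`. LOSS with `A = B` of SQR and `v₀ = exp(-C(1+log(4/(1-q)²)))`. LANDAU. -/
def CORE_stmt : Prop := ∀ n : ℕ, 2 ≤ n → ∀ (C A θ m : ℝ), 0 < C → 0 < A → 0 < θ → θ ≤ 1 → 0 < m →
  ∃ c₂ q : ℝ, 0 < c₂ ∧ c₂ < 1 ∧ 0 ≤ q ∧ q < 1 ∧ ∀ (β a : ℕ → ℂ) (t : ℕ), MS.OrbD n β a t → m ≤ 1 - ‖a 0‖ →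
    CNT n β a t C A θ → ∃ G : ℂ → ℂ, HY.UN G ∧ (∀ y ∈ HY.UD, MS.E n β t (G y) = c₂ * y) ∧ ‖HY.T (a t) (G 0)‖ ≤ q

end MA
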