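import Pool.Agent.helper5.DH.Spec
import Pool.Agent.helper94.MA.Spec

/-!
# Block mm: (architect helper94), dynamical part: THA (Theorem A), conclusion = conclusion of `DH.CLS_stmt`
-/

set_option autoImplicit false

open Complex Metric Set Filter Topology MeasureTheory
open Pool.Agent.helper98.ILF Pool.Agent.helper16.Multibrot
open HY (UD T S hd UN RM VV SG Orb fz)

noncomputable section

namespace MA

/-- the count of the times with `1 - ‖a‖ ≥ g` (block ed:). -/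
def CTG (n : ℕ) (r : ℝ) (M : ℕ) (C : ℝ) : Prop := ∀ c ∈ multibrot n, Disjoint (ball c r) (hyperbolic n) →
  ∀ (Φ : ℕ → ℂ → ℂ) (b : ℕ → ℂ) (k : ℕ) (p : ℂ) (t : ℕ), DH.FA n c Φ b M k p t → ∀ g : ℝ, 0 < g → g ≤ 1 →
  ((((Finset.range t).filter (fun i => g ≤ 1 - ‖DH.yv Φ n c (k + t - i) p i‖)).card : ℕ) : ℝ) ≤
    C * g⁻¹ * (1 + Real.log (1 / g))

/-- POWER SAVING with the dependence on the position `v` of the obstacle (block ed:). -/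
def PSH (n : ℕ) (r : ℝ) (M : ℕ) (C γ A : ℝ) : Prop := ∀ c ∈ multibrot n, Disjoint (ball c r) (hyperbolic n) →
  ∀ (Φ : ℕ → ℂ → ℂ) (b : ℕ → ℂ) (k : ℕ) (p : ℂ) (t : ℕ), DH.FA n c Φ b M k p t → ∀ g s : ℝ, 0 < g → g ≤ 1 → 0 < s → s ≤ 1 →
  ((((Finset.range t).filter (fun i => g ≤ 1 - ‖DH.yv Φ n c (k + t - i) p i‖ ∧ s ≤ 1 - ‖DH.yv Φ n c k 0 (t - i)‖)).card : ℕ) : ℝ) ≤
    C * g ^ (-γ) * s ^ (-A)

/-- the branch over a disc around `0` with bounded geometry (conclusion of `DH.CLS_stmt`). -/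
def BRA (n : ℕ) (r : ℝ) (M : ℕ) : Prop := ∃ c₂ K : ℝ, 0 < c₂ ∧ c₂ ≤ 1 / 2 ∧ 0 < K ∧ ∀ c ∈ multibrot n,
  Disjoint (ball c r) (hyperbolic n) →
  ∀ (Φ : ℕ → ℂ → ℂ) (b : ℕ → ℂ) (k : ℕ) (p : ℂ) (t : ℕ), DH.FA n c Φ b M k p t → BR.AR n c →
  ∃ X : ℂ → ℂ, DifferentiableOn ℂ X UD ∧ InjOn X UD ∧ (∀ y ∈ UD, (fz n c)^[t] (X y) = Φ k (c₂ * y)) ∧
    (∀ y ∈ UD, X y ∈ VV n c (k + t)) ∧ ‖X 0 - p‖ ≤ K * ‖deriv X 0‖

/-- BRI: the bridge: `MS.E` is `f^j` in the coordinates of the tower.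
PROOF. Induction on `j`, `Tow.rel`. -/
def BRI_stmt : Prop := ∀ (n : ℕ) (c : ℂ) (Φ : ℕ → ℂ → ℂ) (b : ℕ → ℂ), DH.Tow n c Φ b → ∀ (k j : ℕ), ∀ w ∈ UD,
  MS.E n (fun i => b (k + i)) j w ∈ UD ∧ Φ k (MS.E n (fun i => b (k + i)) j w) = (fz n c)^[j] (Φ (k + j) w)

/-- THA: Theorem A. Uses CORE, BRI, `DH.BTP_stmt`, `DH.COP_stmt`, `DH.ETB_stmt`, `HY.MOB_stmt`, `HY.HDI_stmt`, `V3.KO3_stmt`.
PROOF. `β i = b (k+i)`, `a j = yv Φ n c (k+j) p (t-j)`: `OrbD`, `CNT` (`ne`, `lb` from ETB with `B ↓ ‖v‖`). CORE: `G`. `X y = Φ (k+t) (G (y/2))`. -/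
def THA_stmt : Prop := ∀ (n : ℕ) (r : ℝ) (M : ℕ) (C γ A : ℝ), 2 ≤ n → 0 < r → 1 ≤ M → γ < 1 → CTG n r M C → PSH n r M C γ A →
  BRA n r M

end MA
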